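import Pool.Agent.Lib_MP_a68485_co.Eight
import Pool.Agent.Lib_MP_a68485_co.Width

/-!
# MP_a68485_co: all the excluded minors with at most eight elements for branch-width at most three

There are exactly two with at most seven elements, `U_{3,7}` and its dual `U_{4,7}`, and exactly 170 with eight
elements: 6 of rank three, their 6 duals of rank five, and 158 of rank four. Of these, 106 have no circuit and no
cocircuit with three elements, 26 have exactly one three-element circuit (and no three-element cocircuit), and 26 are
the duals of these. The list `list170` gives them all; four-element (or three-element) sets are coded by the binary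
number with ones at their elements.

The proof of rank four: a matroid with eight elements has branch-width at most three iff there are a four-element set
`X` with `λ(X) ≤ 3` or two disjoint three-element sets `X`, `Y` with `λ(X), λ(Y) ≤ 3`; so an excluded minor of rank
four has the rank function `rank4` for a family of four-element sets (its four-element circuits) that pairwise meet in
one or two elements; an exhaustive search up to isomorphism, checked by the kernel through certificates, gives the
list.
-/

set_option autoImplicit false

universe u

namespace Pool.Agent.Results.MP_a68485_co.EightElements

open Pool.Agent.BW3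

/-- At most seven elements: exactly `U_{3,7}` and its dual. Eight elements: a matroid is an excluded minor for
branch-width at most three iff it is isomorphic to a member of the list of 170 pairwise non-isomorphic matroids. -/
theorem result :
    (∀ (α : Type u) (M : Matroid α), M.Finite → M.E.ncard ≤ 7 →
      (Excluded M ↔ (∃ f : Fin 7 → α, Desc M 7 [] f) ∨ ∃ f : Fin 7 → α, Desc M.dual 7 [] f)) ∧
    (∀ (α : Type u) (M : Matroid α), M.Finite → M.E.ncard = 8 → (Excluded M ↔ ∃ s ∈ list170, Is8 M s)) ∧
    (∀ s ∈ list170, ∃ M : Matroid (Fin 8), M.E = Set.univ ∧ Is8 M s) ∧
    list170.Nodup ∧ list170.length = 170 ∧
    (∀ s ∈ list170, ∀ t ∈ list170, ∀ (α : Type u) (M : Matroid α), M.Finite → Is8 M s → Is8 M t → s = t) := by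
  refine ⟨fun α M hM h7 => ?_, fun α M hM h8 => ?_, fun s hs => eight_exists hs, list170_nodup, list170_length,
    fun s hs t ht α M hM h1 h2 => eight_unique hs ht h1 h2⟩
  · rw [excluded_iff M]
    exact seven_iff h7
  · rw [excluded_iff M]
    exact eight_iff h8

end Pool.Agent.Results.MP_a68485_co.EightElements
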