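import Pool.Agent.Lib_MP_a68485_co.Main
import Pool.Agent.Lib_MP_a68485_co.Exist
import Pool.Agent.Lib_MP_a68485_co.Check
import Pool.Agent.Lib_MP_a68485_co.Unique
import Pool.Agent.Lib_MP_a68485_co.Width
import Pool.Agent.Lib_MP_a68485_co.Class

/-!
# MP_a68485_co: all the excluded minors of rank three and of corank three for branch-width at most three

The class of the matroids of branch-width at most three has exactly 87 excluded minors of rank three (one with seven
elements, six with eight, 61 with nine, 19 with ten) and exactly 87 of corank three, their duals. The list `systems`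
gives, for each of them, the number `n` of elements and the lines with at least three points as binary numbers: the
line `{i, j, k}` of the matroid on `{0, ..., n - 1}` is the number `2 ^ i + 2 ^ j + 2 ^ k`, and `{i, j, k, l}` is
`2 ^ i + 2 ^ j + 2 ^ k + 2 ^ l`.

The proof: a matroid of rank three has branch-width at most three iff its ground set is covered by three lines;
excluded minors of rank three are therefore the simple matroids of rank three that are critical for this covering
property, they have lines with at most four points and 7 to 10 elements; an exhaustive search up to isomorphism,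
checked by the kernel through certificates, gives the list.
-/

set_option autoImplicit false

universe u

namespace Pool.Agent.Results.MP_a68485_co.RankThree

open Pool.Agent.BW3

/-- The list: `(7, [])` is the uniform matroid `U_{3,7}`, then 6, 61 and 19 systems of lines on 8, 9 and 10 points. -/
def systems : List (ℕ × List ℕ) :=
  [(7, [])] ++ list8.map (fun P => (8, P)) ++ list9.map (fun P => (9, P)) ++ list10.map (fun P => (10, P))

/-- Rank three: a matroid is an excluded minor for branch-width at most three iff it is isomorphic to a member of the
list. Corank three: the same for the dual. A matroid of rank at most three has branch-width at most three iff it has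
no minor isomorphic to a member of the list. Every member of the list is a matroid, there are 87 members, and they are
pairwise non-isomorphic. -/
theorem result :
    (∀ (α : Type u) (M : Matroid α), M.Finite → rk M M.E = 3 →
      (Excluded M ↔ ∃ s ∈ systems, ∃ f : Fin s.1 → α, Desc M s.1 s.2 f)) ∧
    (∀ (α : Type u) (M : Matroid α), M.Finite → rk M.dual M.E = 3 →
      (Excluded M ↔ ∃ s ∈ systems, ∃ f : Fin s.1 → α, Desc M.dual s.1 s.2 f)) ∧
    (∀ (α : Type u) (M : Matroid α), M.Finite → rk M M.E ≤ 3 →
      (BW M 3 ↔ ∀ N : Matroid α, N.IsMinor M → ¬ ∃ s ∈ systems, ∃ f : Fin s.1 → α, Desc N s.1 s.2 f)) ∧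
    (∀ s ∈ systems, ∃ M : Matroid (Fin s.1), Desc M s.1 s.2 id) ∧
    systems.Nodup ∧ systems.length = 87 ∧
    (∀ s ∈ systems, ∀ t ∈ systems, ∀ (α : Type u) (M : Matroid α) (f : Fin s.1 → α) (g : Fin t.1 → α),
      Desc M s.1 s.2 f → Desc M t.1 t.2 g → s = t) := by
  have main : ∀ (α : Type u) (M : Matroid α), M.Finite → rk M M.E = 3 →
      (ExMinor M ↔ ∃ s ∈ systems, ∃ f : Fin s.1 → α, Desc M s.1 s.2 f) := by
    intro α M hM h3
    exact main_rank_three class8 class9 class10 good_all h3
  refine ⟨fun α M hM h3 => ?_, fun α M hM h3 => ?_, fun α M hM h3 => ?_, fun s hs => ?_, by decide +kernel, systems_length, ?_⟩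
  · rw [excluded_iff M]
    exact main α M hM h3
  · rw [excluded_iff M, ← ExMinor_dual_iff M]
    exact main α M.dual inferInstance h3
  · rw [bw_iff M (by norm_num), bw_iff_no_minor h3]
    refine forall_congr' fun N => forall_congr' fun hN => not_congr ?_
    have hfin : N.Finite := finite_of_minor hN
    constructor
    · rintro ⟨h4, h5⟩
      exact (main α N hfin h4).1 h5
    · rintro ⟨s, hs, f, hd⟩
      exact exMinor_of_desc hd (good_all s hs)
  · have hg := good_all s hs
    obtain ⟨M, hE, hrk⟩ := exists_matroid s.1 s.2 fun m hm l hl hne => hg.meet _ _ ⟨m, hm, rfl⟩ ⟨l, hl, rfl⟩ hne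
    refine ⟨M, Function.injective_id, ?_, fun A => ?_⟩
    · rw [Set.range_id, hE]
    · rw [Set.image_id]
      exact hrk A
  · intro s hs t ht α M f g hf hg
    exact systems_unique s t hs ht M f g hf hg

end Pool.Agent.Results.MP_a68485_co.RankThree
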