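import Pool.Agent.Lib_MP_a68485_co.SPE
import Pool.Agent.Lib_MP_a68485_co.SPB
import Pool.Agent.Lib_MP_a68485_co.SPC
import Pool.Agent.Lib_MP_a68485_co.SPD

/-!
# MP_a68485_co: the sparse paving excluded minors for branch-width at most three with at least nine elements

A sparse paving matroid with `n ≥ 9` elements and rank `r`, `4 ≤ r ≤ n - 4`, has branch-width at least four, because
every set `X` with `n / 3 ≤ |X| ≤ 2 n / 3` has `λ(X) ≥ 4`. Hence an excluded minor has `n = 9`, and (up to duality)
`r = 4`; then by the criterion for eight elements the complement of every point is the union of two disjoint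
circuit-hyperplanes. Nine such pairs of four-element sets that pairwise meet in at most two points form the 18
circles of the Moebius plane of order three that miss a point; the kernel checks that they are unique up to a
permutation.
-/

set_option autoImplicit false

universe u

namespace Pool.Agent.Results.MP_a68485_co.SparsePaving

open Pool.Agent.BW3

/-- A sparse paving matroid with at least nine elements, rank at least four and corank at least four has
branch-width more than three, and it is an excluded minor for branch-width at most three if and only if it or its
dual is isomorphic to one explicit matroid of rank four on nine elements, which exists and is sparse paving. -/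
theorem result :
    (∀ (α : Type u) (M : Matroid α), M.Finite → SparsePaving M → 9 ≤ M.E.ncard → 4 ≤ rk M M.E →
      rk M M.E + 4 ≤ M.E.ncard →
      ¬ BW M 3 ∧ (Excluded M ↔ (∃ f : Fin 9 → α, Desc9 M f) ∨ ∃ f : Fin 9 → α, Desc9 M.dual f)) ∧
    ∃ M : Matroid (Fin 9), M.E = Set.univ ∧ SparsePaving M ∧ Desc9 M id := by
  refine ⟨fun α M hM hs h9 h4 h5 => ?_, ?_⟩
  · exact sp_main class9 (fun N hN f hf => desc9_ex hf) hs h9 h4 h5
  · obtain ⟨M, hM, hd⟩ := exists9
    exact ⟨M, hM, (desc9_sparse hd).2.2, hd⟩

end Pool.Agent.Results.MP_a68485_co.SparsePaving
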